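import Pool.Agent.N516.SC.Stm

/-!
# The length of a cycle cover (project SC, part COV)
-/

set_option autoImplicit false

namespace Pool.Agent.N707.SC

open Pool.Agent.N516.SC Finset

namespace Cov

open Classical in
/-- the labels -/
noncomputable def lab {V : Type} {G : SimpleGraph V} {m : ℕ} (C : Fin m → G.Subgraph) (v w : V) :
    Finset (Fin m) := univ.filter fun j => (C j).Adj v w

variable {V : Type} {G : SimpleGraph V} {m : ℕ} {C : Fin m → G.Subgraph}

theorem mem_lab {v w : V} {j : Fin m} : j ∈ lab C v w ↔ (C j).Adj v w := by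
  classical
  unfold lab
  simp

theorem lab_symm (v w : V) : lab C v w = lab C w v := by
  ext j
  rw [mem_lab, mem_lab]
  exact (C j).adj_comm v w

theorem nbr_eq [Finite V] {v a b c : V} (h3 : (G.neighborSet v).ncard = 3) (hab : a ≠ b)
    (hac : a ≠ c) (hbc : b ≠ c) (ha : G.Adj v a) (hb : G.Adj v b) (hc : G.Adj v c) (w : V)
    (hw : G.Adj v w) : w = a ∨ w = b ∨ w = c := by
  have h1 : ({a, b, c} : Set V) ⊆ G.neighborSet v := by
    intro x hx
    simp only [Set.mem_insert_iff, Set.mem_singleton_iff] at hx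
    rcases hx with rfl | rfl | rfl
    · exact ha
    · exact hb
    · exact hc
  have h2 : ({a, b, c} : Set V).ncard = 3 := Set.ncard_eq_three.2 ⟨a, b, c, hab, hac, hbc, rfl⟩
  have h4 := Set.eq_of_subset_of_ncard_le h1 (by rw [h2, h3])
  have h5 : w ∈ ({a, b, c} : Set V) := by
    rw [h4]
    exact hw
  simpa using h5

open Classical in
theorem deg_eq [Finite V] {v a b c : V} (h3 : (G.neighborSet v).ncard = 3) (hab : a ≠ b)
    (hac : a ≠ c) (hbc : b ≠ c) (ha : G.Adj v a) (hb : G.Adj v b) (hc : G.Adj v c)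
    (H : G.Subgraph) : (H.neighborSet v).ncard =
      (if H.Adj v a then 1 else 0) + (if H.Adj v b then 1 else 0) +
        (if H.Adj v c then 1 else 0) := by
  have h1 : H.neighborSet v = (((({a, b, c} : Finset V).filter fun w => H.Adj v w) : Finset V) :
      Set V) := by
    ext w
    simp only [SimpleGraph.Subgraph.mem_neighborSet, Finset.coe_filter, Finset.mem_insert,
      Finset.mem_singleton, Set.mem_ofPred_eq]
    exact ⟨fun h => ⟨nbr_eq h3 hab hac hbc ha hb hc w h.adj_sub, h⟩, fun h => h.2⟩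
  rw [h1, Set.ncard_coe_finset, Finset.card_filter, Finset.sum_insert, Finset.sum_insert,
    Finset.sum_singleton, add_assoc]
  · simpa using hbc
  · simp [hab, hac]

theorem key [Finite V] (hC : IsCover C) {v a b c : V} (h3 : (G.neighborSet v).ncard = 3)
    (hab : a ≠ b) (hac : a ≠ c) (hbc : b ≠ c) (ha : G.Adj v a) (hb : G.Adj v b)
    (hc : G.Adj v c) : symmDiff (lab C v a) (lab C v b) = lab C v c ∧ (lab C v a).Nonempty ∧
      (lab C v b).Nonempty ∧ (lab C v c).Nonempty ∧
      (lab C v a).card + (lab C v b).card + (lab C v c).card =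
        ∑ j, ((C j).neighborSet v).ncard ∧ Even (∑ j, ((C j).neighborSet v).ncard) := by
  classical
  have hne : ∀ w, G.Adj v w → (lab C v w).Nonempty := by
    intro w hw
    obtain ⟨i, hi⟩ := hC.2 s(v, w) hw
    exact ⟨i, mem_lab.2 hi⟩
  have hdeg : ∀ j, ((C j).neighborSet v).ncard = (if (C j).Adj v a then 1 else 0) +
      (if (C j).Adj v b then 1 else 0) + (if (C j).Adj v c then 1 else 0) :=
    fun j => deg_eq h3 hab hac hbc ha hb hc (C j)
  refine ⟨?_, hne a ha, hne b hb, hne c hc, ?_, ?_⟩
  · ext j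
    rw [Finset.mem_symmDiff, mem_lab, mem_lab, mem_lab]
    have h1 := (hC.1 j).2 v
    rw [hdeg j] at h1
    by_cases x : (C j).Adj v a <;> by_cases y : (C j).Adj v b <;> by_cases z : (C j).Adj v c <;>
      simp [x, y, z] at h1 ⊢ <;> revert h1 <;> decide
  · simp_rw [hdeg]
    rw [Finset.sum_add_distrib, Finset.sum_add_distrib]
    unfold lab
    rw [Finset.card_filter, Finset.card_filter, Finset.card_filter]
  · exact Finset.even_sum _ fun j _ => (hC.1 j).2 v

theorem handshake [Fintype V] (H : G.Subgraph) :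
    ∑ v, (H.neighborSet v).ncard = 2 * H.edgeSet.ncard := by
  classical
  have h1 := SimpleGraph.sum_degrees_eq_twice_card_edges H.spanningCoe
  have h2 : ∀ v, (H.neighborSet v).ncard = H.spanningCoe.degree v := by
    intro v
    rw [← SimpleGraph.card_neighborFinset_eq_degree, ← Set.ncard_coe_finset,
      SimpleGraph.coe_neighborFinset]
    rfl
  have h3 : H.edgeSet.ncard = H.spanningCoe.edgeFinset.card := by
    rw [← Set.ncard_coe_finset, SimpleGraph.coe_edgeFinset]
    rfl
  rw [h3, ← h1]
  exact Finset.sum_congr rfl fun v _ => h2 v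

theorem local_bound [Finite V] (hG : IsCubic G) (hC : IsCover C) (v : V) :
    4 ≤ ∑ j, ((C j).neighborSet v).ncard ∧
      (¬ TightAt G (lab C) v → 6 ≤ ∑ j, ((C j).neighborSet v).ncard) := by
  have h3 := hG v
  obtain ⟨a, b, c, hab, hac, hbc, habc⟩ := Set.ncard_eq_three.1 h3
  have hadj : ∀ w, w ∈ ({a, b, c} : Set V) → G.Adj v w := by
    intro w hw
    rw [← habc] at hw
    exact hw
  have h4 : 4 ≤ ∑ j, ((C j).neighborSet v).ncard := by
    obtain ⟨_, h5, h6, h7, h8, h9⟩ := key hC h3 hab hac hbc (hadj a (by simp)) (hadj b (by simp))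
      (hadj c (by simp))
    have := h5.card_pos
    have := h6.card_pos
    have := h7.card_pos
    obtain ⟨r, hr⟩ := h9
    omega
  refine ⟨h4, fun hT => ?_⟩
  unfold TightAt at hT
  push Not at hT
  obtain ⟨a', b', c', hab', hac', hbc', ha, hb, hc, hn⟩ := hT
  obtain ⟨h5, h6, h7, h8, h9, h10⟩ := key hC h3 hab' hac' hbc' ha hb hc
  have h11 : ∑ j, ((C j).neighborSet v).ncard ≠ 4 := by
    intro h12
    exact hn ⟨h5, h6, h7, h8, by rw [h9, h12]⟩
  obtain ⟨r, hr⟩ := h10
  omega

end Cov

open Cov in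
theorem t_COV : S_COV := by
  classical
  intro V _ G hG m C hC
  refine ⟨lab C, lab_symm, ?_⟩
  have h1 : ∑ v : V, (4 + 2 * if ¬ TightAt G (lab C) v then 1 else 0) ≤
      ∑ v, ∑ j, ((C j).neighborSet v).ncard := by
    refine Finset.sum_le_sum fun v _ => ?_
    obtain ⟨h2, h3⟩ := local_bound hG hC v
    split_ifs with h
    · omega
    · have := h3 h
      omega
  rw [Finset.sum_comm] at h1
  simp_rw [handshake] at h1
  rw [← Finset.mul_sum, Finset.sum_add_distrib, ← Finset.mul_sum] at h1
  have h4 : ∑ v : V, (if ¬ TightAt G (lab C) v then 1 else 0) =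
      {v : V | ¬ TightAt G (lab C) v}.ncard := by
    rw [← Finset.card_filter, ← Set.ncard_coe_finset]
    congr 1
    ext v
    simp
  rw [h4] at h1
  simp only [Finset.sum_const, Finset.card_univ, smul_eq_mul] at h1
  unfold length
  omega

end Pool.Agent.N707.SC
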